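import Pool.Agent.Helper29.UG.Props
import Pool.Agent.Helper6.RC.DomMat

/-!
# Domination by an invariant trace passes to matrix algebras
-/

open scoped ENNReal NNReal InnerProductSpace ComplexOrder
open Filter Topology

attribute [-instance] CStarMatrix.instAlgebra CStarMatrix.instModule CStarMatrix.instSMul
  CStarMatrix.instMulAction CStarMatrix.instDistribMulAction

noncomputable section
namespace Pool.Agent.Helper73.UG

open _root_.RC
open Pool.Agent.Helper6.RC (tst tau_flat)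

universe u

theorem domInvMatP (h1 : QOfTP.{u}) (h2 : RedDnP.{u}) (h4 : FlatP.{u}) : DomInvMatP.{u} := by
  intro A _ _ _ G α C hC hdom ν _ _ _ β hβ
  have hν : (0 : ℝ) < Fintype.card ν := by exact_mod_cast Fintype.card_pos
  intro σ''
  obtain ⟨σ, hσ⟩ := h2 A ν σ''
  obtain ⟨φ, σ₀, hinv, hQ, hle⟩ := hdom σ
  obtain ⟨σ', hQ'⟩ := h1 (CStarMatrix ν ν A) (tst φ ν)
  refine ⟨tst φ ν, σ', ?_, hQ', ?_⟩
  · intro g T
    show (Fintype.card ν : ℂ)⁻¹ * ∑ i, φ.φ (β g T i i) =
      (Fintype.card ν : ℂ)⁻¹ * ∑ i, φ.φ (T i i)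
    rw [hβ φ.φ hinv g T]
  · intro κ _ _ X hX
    have hf := h4 A ν κ κ X X
    have hfX : 0 ≤ flat X := hf.1.1 hX
    have e1 : σ'.dim X = (Fintype.card ν : ℝ)⁻¹ * σ₀.dim (flat X) := by
      unfold QTrace.dim
      rw [Real.mul_iSup_of_nonneg (by positivity)]
      refine iSup_congr fun n => ?_
      rw [tau_flat hQ hQ', hf.2.2 _ (by fun_prop) hX]
    have e2 := hle (κ × ν) (flat X) hfX
    rw [hσ κ X hX, e1, div_le_iff₀ hν]
    rw [Fintype.card_prod, Nat.cast_mul] at e2
    calc σ.dim (flat X) ≤ C * (Fintype.card κ * Fintype.card ν) * σ₀.dim (flat X) := e2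
      _ = C * Fintype.card ν * Fintype.card κ * ((Fintype.card ν : ℝ)⁻¹ * σ₀.dim (flat X)) *
          Fintype.card ν := by field_simp

end Pool.Agent.Helper73.UG
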